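import Mathlib

open MeasureTheory Set Filter Topology
open scoped ENNReal

namespace Pool.Agent.Lib.Pc848f8

/-- multiplication by `a` as a real-linear map has determinant `|a|^2` -/
lemma det_mul (a : ℂ) :
    ((ContinuousLinearMap.toSpanSingleton ℂ a : ℂ →L[ℂ] ℂ).restrictScalars ℝ).det = ‖a‖ ^ 2 := by
  have h : (((ContinuousLinearMap.toSpanSingleton ℂ a : ℂ →L[ℂ] ℂ).restrictScalars ℝ) :
      ℂ →ₗ[ℝ] ℂ) = Algebra.lmul ℝ ℂ a := by
    ext x
    simp [mul_comm]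
  rw [ContinuousLinearMap.det, h]
  have : LinearMap.det (Algebra.lmul ℝ ℂ a) = Algebra.norm ℝ a := rfl
  rw [this, Algebra.norm_complex_apply, Complex.normSq_eq_norm_sq]

/-- area formula on a set where `f` is injective -/
lemma area_inj (f : ℂ → ℂ) (Ω E : Set ℂ) (hΩ : IsOpen Ω) (hf : DifferentiableOn ℂ f Ω)
    (hE : MeasurableSet E) (hEΩ : E ⊆ Ω) (hinj : InjOn f E) (g : ℂ → ℝ≥0∞) :
    ∫⁻ c in f '' E, g c = ∫⁻ x in E, ENNReal.ofReal (‖deriv f x‖ ^ 2) * g (f x) := by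
  have h := lintegral_image_eq_lintegral_abs_det_fderiv_mul (μ := volume) hE
    (f := f) (f' := fun x => (ContinuousLinearMap.toSpanSingleton ℂ (deriv f x) : ℂ →L[ℂ] ℂ).restrictScalars ℝ)
    (fun x hx => by
      have h1 : HasDerivAt f (deriv f x) x :=
        (hf.differentiableAt (hΩ.mem_nhds (hEΩ hx))).hasDerivAt
      exact (h1.hasFDerivAt.restrictScalars ℝ).hasFDerivWithinAt) hinj g
  rw [h]
  congr 1
  ext x
  simp only [det_mul, abs_of_nonneg (sq_nonneg ‖deriv f x‖)]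

lemma exists_partition (f : ℂ → ℂ) (Ω : Set ℂ) (hΩ : IsOpen Ω) (hf : DifferentiableOn ℂ f Ω) :
    ∃ V : ℕ → Set ℂ, (∀ i, IsOpen (V i)) ∧ (∀ i, V i ⊆ Ω) ∧ (∀ i, InjOn f (V i)) ∧
      {x ∈ Ω | deriv f x ≠ 0} ⊆ ⋃ i, V i := by
  have hloc : ∀ x : {x : ℂ // x ∈ Ω ∧ deriv f x ≠ 0}, ∃ W : Set ℂ, IsOpen W ∧ (x : ℂ) ∈ W ∧
      W ⊆ Ω ∧ InjOn f W := by
    rintro ⟨x, hx, hd⟩
    have han : AnalyticAt ℂ f x := hf.analyticAt (hΩ.mem_nhds hx)
    have hstr : HasStrictDerivAt f (deriv f x) x := han.hasStrictDerivAt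
    have hstr' := hstr.hasStrictFDerivAt_equiv hd
    have hmem := hstr'.mem_toOpenPartialHomeomorph_source
    refine ⟨(hstr'.toOpenPartialHomeomorph f).source ∩ Ω,
      (hstr'.toOpenPartialHomeomorph f).open_source.inter hΩ, ⟨hmem, hx⟩, inter_subset_right, ?_⟩
    have hinj := (hstr'.toOpenPartialHomeomorph f).injOn
    rw [hstr'.toOpenPartialHomeomorph_coe] at hinj
    exact hinj.mono inter_subset_left
  choose W hWo hxW hWΩ hWi using hloc
  obtain ⟨T, hTc, hT⟩ := TopologicalSpace.isOpen_iUnion_countable W hWo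
  have hcov : {x ∈ Ω | deriv f x ≠ 0} ⊆ ⋃ i ∈ T, W i := by
    rw [hT]
    intro x hx
    exact mem_iUnion.mpr ⟨⟨x, hx⟩, hxW _⟩
  rcases T.eq_empty_or_nonempty with hTe | hTne
  · refine ⟨fun _ => ∅, fun _ => isOpen_empty, fun _ => empty_subset _, fun _ => injOn_empty _, ?_⟩
    rw [hTe] at hcov
    simpa using hcov
  · obtain ⟨e, he⟩ := hTc.exists_eq_range hTne
    refine ⟨fun i => W (e i), fun i => hWo _, fun i => hWΩ _, fun i => hWi _, ?_⟩
    refine hcov.trans ?_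
    intro x hx
    simp only [mem_iUnion, exists_prop] at hx ⊢
    obtain ⟨i, hi, hxi⟩ := hx
    rw [he] at hi
    obtain ⟨j, rfl⟩ := hi
    exact ⟨j, hxi⟩

/-- The area formula with multiplicity. -/
theorem area_formula (f : ℂ → ℂ) (Ω S : Set ℂ) (hΩ : IsOpen Ω) (hf : DifferentiableOn ℂ f Ω)
    (hS : MeasurableSet S) (hSΩ : S ⊆ Ω) (g : ℂ → ℝ≥0∞) :
    ∃ E : ℕ → Set ℂ, (∀ i, MeasurableSet (E i)) ∧ Pairwise (Function.onFun Disjoint E) ∧
      (⋃ i, E i) = {x ∈ S | deriv f x ≠ 0} ∧ (∀ i, InjOn f (E i)) ∧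
      (∀ i, MeasurableSet (f '' E i)) ∧
      ∫⁻ x in S, ENNReal.ofReal (‖deriv f x‖ ^ 2) * g (f x) = ∑' i, ∫⁻ c in f '' E i, g c := by
  obtain ⟨V, hVo, hVΩ, hVi, hV⟩ := exists_partition f Ω hΩ hf
  have hdm : MeasurableSet {x : ℂ | deriv f x ≠ 0} :=
    (measurableSet_eq_fun (measurable_deriv f) measurable_const).compl
  have hS' : MeasurableSet {x ∈ S | deriv f x ≠ 0} := hS.inter hdm
  set E : ℕ → Set ℂ := fun i => {x ∈ S | deriv f x ≠ 0} ∩ disjointed V i with hE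
  have hEm : ∀ i, MeasurableSet (E i) := fun i =>
    hS'.inter (MeasurableSet.disjointed (fun i => (hVo i).measurableSet) i)
  have hEsub : ∀ i, E i ⊆ V i := fun i => inter_subset_right.trans (disjointed_subset V i)
  have hdisj : Pairwise (Function.onFun Disjoint E) := by
    intro i j hij
    exact (disjoint_disjointed V hij).mono inter_subset_right inter_subset_right
  have hU : (⋃ i, E i) = {x ∈ S | deriv f x ≠ 0} := by
    rw [hE, ← inter_iUnion, iUnion_disjointed]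
    apply inter_eq_left.mpr
    intro x hx
    exact hV ⟨hSΩ hx.1, hx.2⟩
  have hinj : ∀ i, InjOn f (E i) := fun i => (hVi i).mono (hEsub i)
  have hEΩ : ∀ i, E i ⊆ Ω := fun i => (hEsub i).trans (hVΩ i)
  refine ⟨E, hEm, hdisj, hU, hinj, ?_, ?_⟩
  · intro i
    exact (hEm i).image_of_continuousOn_injOn ((hf.continuousOn).mono (hEΩ i)) (hinj i)
  · have h1 : ∫⁻ x in S, ENNReal.ofReal (‖deriv f x‖ ^ 2) * g (f x) =
        ∫⁻ x in {x ∈ S | deriv f x ≠ 0}, ENNReal.ofReal (‖deriv f x‖ ^ 2) * g (f x) := by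
      have hsplit : S = {x ∈ S | deriv f x ≠ 0} ∪ {x ∈ S | deriv f x = 0} := by
        ext x
        simp only [mem_union, mem_ofPred_eq]
        tauto
      have hm : MeasurableSet {x ∈ S | deriv f x = 0} :=
        hS.inter (measurableSet_eq_fun (measurable_deriv f) measurable_const)
      have hz : ∫⁻ x in {x ∈ S | deriv f x = 0},
          ENNReal.ofReal (‖deriv f x‖ ^ 2) * g (f x) = 0 := by
        rw [setLIntegral_congr_fun hm (g := fun _ => 0)]
        · simp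
        · intro x hx
          simp [hx.2]
      conv_lhs => rw [hsplit]
      rw [lintegral_union hm, hz, add_zero]
      rw [Set.disjoint_left]
      intro x hx hx'
      exact hx.2 hx'.2
    rw [h1, ← hU, lintegral_iUnion hEm hdisj]
    congr 1
    ext i
    rw [area_inj f Ω (E i) hΩ hf (hEm i) (hEΩ i) (hinj i) g]

end Pool.Agent.Lib.Pc848f8
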