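import Mathlib
import Pool.Agent.Lib.Pc848f8.Area

open MeasureTheory Set Filter Topology
open scoped ENNReal

namespace Pool.Agent.Lib.Pc848f8

/-- spherical density -/
noncomputable def sd (c : ℂ) : ℝ≥0∞ := ENNReal.ofReal (1 / (1 + ‖c‖ ^ 2) ^ 2)

lemma measurable_sd : Measurable sd := by
  unfold sd
  fun_prop

/-- spherical measure -/
noncomputable def sph : Measure ℂ := volume.withDensity sd

lemma sph_apply {A : Set ℂ} (hA : MeasurableSet A) : sph A = ∫⁻ c in A, sd c :=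
  withDensity_apply _ hA

lemma sph_univ_lt_top : sph univ < ⊤ := by
  have h : Integrable (fun x : ℂ => (1 + ‖x‖ ^ 2) ^ (-(4 : ℝ) / 2)) volume := by
    apply integrable_rpow_neg_one_add_norm_sq
    simp [Complex.finrank_real_complex]
    norm_num
  have h2 := h.lintegral_lt_top
  rw [sph_apply MeasurableSet.univ, setLIntegral_univ]
  refine lt_of_le_of_lt (le_of_eq ?_) h2
  apply lintegral_congr
  intro x
  unfold sd
  congr 1
  have : (-(4 : ℝ) / 2) = ((-2 : ℤ) : ℝ) := by norm_num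
  rw [this, Real.rpow_intCast, zpow_neg, one_div]
  norm_cast

instance : IsFiniteMeasure sph := ⟨sph_univ_lt_top⟩

lemma tsum_indicator_le (A : ℕ → Set ℂ) (c : ℂ) (M : ℕ)
    (h : ∀ I : Finset ℕ, (∀ i ∈ I, c ∈ A i) → I.card ≤ M) :
    ∑' i, (A i).indicator (1 : ℂ → ℝ≥0∞) c ≤ M := by
  classical
  rw [ENNReal.tsum_eq_iSup_sum]
  apply iSup_le
  intro J
  have h1 : ∑ i ∈ J, (A i).indicator (1 : ℂ → ℝ≥0∞) c = ((J.filter (fun i => c ∈ A i)).card : ℝ≥0∞) := by
    rw [Finset.card_eq_sum_ones, Nat.cast_sum, Finset.sum_filter]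
    apply Finset.sum_congr rfl
    intro i _
    by_cases hc : c ∈ A i <;> simp [hc]
  rw [h1]
  exact_mod_cast h _ (fun i hi => (Finset.mem_filter.mp hi).2)

lemma le_tsum_indicator (A : ℕ → Set ℂ) (c : ℂ) (I : Finset ℕ) (h : ∀ i ∈ I, c ∈ A i) :
    (I.card : ℝ≥0∞) ≤ ∑' i, (A i).indicator (1 : ℂ → ℝ≥0∞) c := by
  refine le_trans (le_of_eq ?_) (ENNReal.sum_le_tsum I)
  rw [Finset.card_eq_sum_ones, Nat.cast_sum]
  apply Finset.sum_congr rfl
  intro i hi
  simp [h i hi]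

lemma tsum_sph_eq (A : ℕ → Set ℂ) (hA : ∀ i, MeasurableSet (A i)) :
    ∑' i, sph (A i) = ∫⁻ c, ∑' i, (A i).indicator (1 : ℂ → ℝ≥0∞) c ∂sph := by
  rw [lintegral_tsum]
  · congr 1
    ext i
    rw [lintegral_indicator_one (hA i)]
  · intro i
    exact (measurable_one.indicator (hA i)).aemeasurable

/-- Upper area bound through multiplicities. -/
theorem area_le (f : ℂ → ℂ) (Ω S : Set ℂ) (hΩ : IsOpen Ω) (hf : DifferentiableOn ℂ f Ω)
    (hS : MeasurableSet S) (hSΩ : S ⊆ Ω) (C : ℝ) (M N : ℕ)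
    (h1 : ∀ c : ℂ, ‖c‖ < C → ∀ X : Finset ℂ, (∀ x ∈ X, x ∈ S ∧ f x = c) → X.card ≤ M)
    (h2 : ∀ c : ℂ, ∀ X : Finset ℂ, (∀ x ∈ X, x ∈ S ∧ f x = c) → X.card ≤ N) :
    ∫⁻ x in S, ENNReal.ofReal (‖deriv f x‖ ^ 2) * sd (f x) ≤
      M * sph univ + N * sph {c | C ≤ ‖c‖} := by
  classical
  obtain ⟨E, hEm, hdisj, hU, hinj, him, heq⟩ := area_formula f Ω S hΩ hf hS hSΩ sd
  rw [heq]
  have h3 : ∑' i, ∫⁻ c in f '' E i, sd c = ∑' i, sph (f '' E i) := by
    congr 1
    ext i
    rw [sph_apply (him i)]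
  rw [h3, tsum_sph_eq _ him]
  have hT : MeasurableSet {c : ℂ | C ≤ ‖c‖} := measurableSet_le measurable_const measurable_norm
  -- finite index sets give distinct preimages
  have key : ∀ c : ℂ, ∀ I : Finset ℕ, (∀ i ∈ I, c ∈ f '' E i) →
      ∃ X : Finset ℂ, X.card = I.card ∧ ∀ x ∈ X, x ∈ S ∧ f x = c := by
    intro c I hI
    choose! x hxE hxc using hI
    refine ⟨I.image x, ?_, ?_⟩
    · apply Finset.card_image_of_injOn
      intro i hi j hj hij
      by_contra hne
      have := Set.disjoint_left.mp (hdisj hne) (hxE i hi)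
      exact this (hij ▸ hxE j hj)
    · intro y hy
      rw [Finset.mem_image] at hy
      obtain ⟨i, hi, rfl⟩ := hy
      refine ⟨?_, hxc i hi⟩
      have : x i ∈ ⋃ i, E i := mem_iUnion.mpr ⟨i, hxE i hi⟩
      rw [hU] at this
      exact this.1
  have hpt : ∀ c : ℂ, ∑' i, (f '' E i).indicator (1 : ℂ → ℝ≥0∞) c ≤
      (M : ℝ≥0∞) + ({c : ℂ | C ≤ ‖c‖}).indicator (fun _ => (N : ℝ≥0∞)) c := by
    intro c
    by_cases hc : C ≤ ‖c‖
    · rw [indicator_of_mem (show c ∈ {c : ℂ | C ≤ ‖c‖} from hc)]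
      refine le_trans ?_ le_add_self
      apply tsum_indicator_le
      intro I hI
      obtain ⟨X, hX1, hX2⟩ := key c I hI
      rw [← hX1]
      exact h2 c X hX2
    · rw [indicator_of_notMem (show c ∉ {c : ℂ | C ≤ ‖c‖} from hc), add_zero]
      apply tsum_indicator_le
      intro I hI
      obtain ⟨X, hX1, hX2⟩ := key c I hI
      rw [← hX1]
      exact h1 c (not_le.mp hc) X hX2
  refine (lintegral_mono hpt).trans (le_of_eq ?_)
  rw [lintegral_add_left measurable_const, lintegral_const, lintegral_indicator hT,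
    lintegral_const, Measure.restrict_apply MeasurableSet.univ, univ_inter]

/-- Lower area bound through multiplicities. -/
theorem le_area (f : ℂ → ℂ) (Ω S : Set ℂ) (hΩ : IsOpen Ω) (hf : DifferentiableOn ℂ f Ω)
    (hS : MeasurableSet S) (hSΩ : S ⊆ Ω) (T : Set ℂ) (hT : MeasurableSet T) (N : ℕ)
    (h : ∀ c ∈ T, ∃ X : Finset ℂ, X.card = N ∧ ∀ x ∈ X, x ∈ S ∧ f x = c ∧ deriv f x ≠ 0) :
    N * sph T ≤ ∫⁻ x in S, ENNReal.ofReal (‖deriv f x‖ ^ 2) * sd (f x) := by
  classical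
  obtain ⟨E, hEm, hdisj, hU, hinj, him, heq⟩ := area_formula f Ω S hΩ hf hS hSΩ sd
  rw [heq]
  have h3 : ∑' i, ∫⁻ c in f '' E i, sd c = ∑' i, sph (f '' E i) := by
    congr 1
    ext i
    rw [sph_apply (him i)]
  rw [h3, tsum_sph_eq _ him]
  have hpt : ∀ c : ℂ, T.indicator (fun _ => (N : ℝ≥0∞)) c ≤
      ∑' i, (f '' E i).indicator (1 : ℂ → ℝ≥0∞) c := by
    intro c
    by_cases hc : c ∈ T
    · rw [indicator_of_mem hc]
      obtain ⟨X, hX1, hX2⟩ := h c hc
      have hi : ∀ x ∈ X, ∃ i, x ∈ E i := by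
        intro x hx
        have : x ∈ ⋃ i, E i := by
          rw [hU]
          exact ⟨(hX2 x hx).1, (hX2 x hx).2.2⟩
        exact mem_iUnion.mp this
      choose! i hi using hi
      have hcard : (X.image i).card = N := by
        rw [← hX1]
        apply Finset.card_image_of_injOn
        intro x hx y hy hxy
        apply hinj (i x) (hi x hx)
        · rw [hxy]; exact hi y hy
        · rw [(hX2 x hx).2.1, (hX2 y hy).2.1]
      rw [← hcard]
      apply le_tsum_indicator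
      intro j hj
      rw [Finset.mem_image] at hj
      obtain ⟨x, hx, rfl⟩ := hj
      exact ⟨x, hi x hx, (hX2 x hx).2.1⟩
    · rw [indicator_of_notMem hc]
      exact zero_le
  refine le_trans (le_of_eq ?_) (lintegral_mono hpt)
  rw [lintegral_indicator hT, lintegral_const, Measure.restrict_apply MeasurableSet.univ,
    univ_inter]

/-- the tail of the spherical measure is small -/
lemma exists_tail (ε : ℝ≥0∞) (hε : 0 < ε) : ∃ C : ℝ, 0 < C ∧ sph {c : ℂ | C ≤ ‖c‖} < ε := by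
  have hanti : Antitone (fun n : ℕ => {c : ℂ | (n : ℝ) ≤ ‖c‖}) := by
    intro m n hmn c hc
    have h1 : (m : ℝ) ≤ n := by exact_mod_cast hmn
    exact h1.trans hc
  have h := tendsto_measure_iInter_atTop (μ := sph) (s := fun n : ℕ => {c : ℂ | (n : ℝ) ≤ ‖c‖})
    (fun n => (measurableSet_le measurable_const measurable_norm).nullMeasurableSet) hanti
    ⟨0, measure_ne_top _ _⟩
  have he : (⋂ n : ℕ, {c : ℂ | (n : ℝ) ≤ ‖c‖}) = ∅ := by
    ext c
    simp only [mem_iInter, mem_empty_iff_false, iff_false, not_forall]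
    obtain ⟨n, hn⟩ := exists_nat_gt ‖c‖
    exact ⟨n, fun h => absurd h (not_le.mpr hn)⟩
  rw [he, measure_empty] at h
  have h2 := (h.eventually (gt_mem_nhds hε)).and (eventually_ge_atTop 1)
  obtain ⟨n, hn, hn1⟩ := h2.exists
  refine ⟨n, ?_, hn⟩
  exact_mod_cast hn1

lemma sph_ball_pos : 0 < sph (Metric.ball (0:ℂ) 1) := by
  rw [sph_apply measurableSet_ball]
  rw [setLIntegral_pos_iff measurable_sd]
  have : Function.support sd ∩ Metric.ball (0:ℂ) 1 = Metric.ball (0:ℂ) 1 := by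
    apply inter_eq_right.mpr
    intro c _
    simp only [Function.mem_support, sd, ne_eq, ENNReal.ofReal_eq_zero, not_le]
    positivity
  rw [this]
  exact Metric.measure_ball_pos _ _ one_pos

end Pool.Agent.Lib.Pc848f8
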