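import Mathlib
import Pool.Agent.Lib.Pc848f8.Mult

open MeasureTheory Set Filter Topology
open scoped ENNReal

namespace Pool.Agent.Lib.Pc848f8

/-- the `N`-th root of `1 - z` -/
noncomputable def rt (N : ℕ) (z : ℂ) : ℂ := Complex.exp (Complex.log (1 - z) / N)

lemma one_sub_re_pos {z : ℂ} (hz : ‖z‖ < 1) : 0 < (1 - z).re := by
  have : z.re ≤ ‖z‖ := Complex.re_le_norm z
  simp only [Complex.sub_re, Complex.one_re]
  linarith

lemma one_sub_ne_zero {z : ℂ} (hz : ‖z‖ < 1) : 1 - z ≠ 0 := by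
  intro h
  have := one_sub_re_pos hz
  rw [h] at this
  simp at this

lemma rt_pow {N : ℕ} (hN : 1 ≤ N) {z : ℂ} (hz : ‖z‖ < 1) : rt N z ^ N = 1 - z := by
  unfold rt
  rw [← Complex.exp_nat_mul, mul_div_cancel₀, Complex.exp_log (one_sub_ne_zero hz)]
  exact_mod_cast (by omega : N ≠ 0)

lemma rt_ne_zero (N : ℕ) (z : ℂ) : rt N z ≠ 0 := Complex.exp_ne_zero _

lemma rt_injOn {N : ℕ} (hN : 1 ≤ N) : InjOn (rt N) (Metric.ball 0 1) := by
  intro z hz z' hz' h
  have h1 := rt_pow hN (mem_ball_zero_iff.mp hz)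
  have h2 := rt_pow hN (mem_ball_zero_iff.mp hz')
  rw [h] at h1
  have := h1.symm.trans h2
  linear_combination -this

lemma norm_rt_pow {N : ℕ} (hN : 1 ≤ N) {z : ℂ} (hz : ‖z‖ < 1) : ‖rt N z‖ ^ N = ‖1 - z‖ := by
  rw [← norm_pow, rt_pow hN hz]

lemma abs_im_rt_le {N : ℕ} (hN : 1 ≤ N) {z : ℂ} (hz : ‖z‖ < 1) :
    |(rt N z).im| ≤ ‖rt N z‖ * (2 / N) := by
  unfold rt
  rw [Complex.norm_exp, Complex.exp_im, abs_mul, abs_of_pos (Real.exp_pos _)]
  apply mul_le_mul_of_nonneg_left _ (Real.exp_pos _).le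
  refine (Real.abs_sin_le_abs).trans ?_
  have h1 : (Complex.log (1 - z) / N).im = Complex.arg (1 - z) / N := by
    rw [Complex.div_natCast_im, Complex.log_im]
  rw [h1, abs_div]
  have h2 : |Complex.arg (1 - z)| ≤ Real.pi / 2 :=
    Complex.abs_arg_le_pi_div_two_iff.mpr (one_sub_re_pos hz).le
  have h3 : Real.pi ≤ 4 := Real.pi_le_four
  have hN' : (0 : ℝ) < N := by exact_mod_cast hN
  rw [abs_of_pos hN']
  apply div_le_div_of_nonneg_right _ hN'.le
  linarith

/-- derivative of the root -/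
noncomputable def rt' (N : ℕ) (z : ℂ) : ℂ := rt N z * (-1 / (1 - z) / N)

lemma hasDerivAt_rt (N : ℕ) {z : ℂ} (hz : ‖z‖ < 1) : HasDerivAt (rt N) (rt' N z) z := by
  unfold rt rt'
  have h1 : HasDerivAt (fun t : ℂ => 1 - t) (-1) z := by
    simpa using (hasDerivAt_id z).const_sub 1
  have h2 := h1.clog (Or.inl (one_sub_re_pos hz))
  exact (h2.div_const (N : ℂ)).cexp

lemma measurable_rt (N : ℕ) : Measurable (rt N) := by
  unfold rt
  exact Complex.measurable_exp.comp
    ((Complex.measurable_log.comp (measurable_const.sub measurable_id)).div_const _)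

lemma measurable_rt' (N : ℕ) : Measurable (rt' N) := by
  unfold rt'
  exact (measurable_rt N).mul
    ((measurable_const.div (measurable_const.sub measurable_id)).div_const _)

/-- the polynomial family -/
noncomputable def P (K B : ℝ) (N : ℕ) (s w : ℂ) : ℂ :=
  K * ∏ j ∈ Finset.range N, (w - (B : ℂ) ^ (j + 1) * s)

noncomputable def Pw (K B : ℝ) (N : ℕ) (s w : ℂ) : ℂ :=
  K * ∑ j ∈ Finset.range N, ∏ i ∈ (Finset.range N).erase j, (w - (B : ℂ) ^ (i + 1) * s)

noncomputable def Ps (K B : ℝ) (N : ℕ) (s w : ℂ) : ℂ :=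
  K * ∑ j ∈ Finset.range N,
    (∏ i ∈ (Finset.range N).erase j, (w - (B : ℂ) ^ (i + 1) * s)) * (-(B : ℂ) ^ (j + 1))

lemma hasDerivAt_P_w (K B : ℝ) (N : ℕ) (s w : ℂ) :
    HasDerivAt (fun w => P K B N s w) (Pw K B N s w) w := by
  unfold P Pw
  apply HasDerivAt.const_mul
  have h := HasDerivAt.fun_finsetProd (u := Finset.range N)
    (f := fun j w => w - (B : ℂ) ^ (j + 1) * s) (f' := fun _ => (1 : ℂ)) (x := w)
    (fun i _ => by simpa using (hasDerivAt_id w).sub_const ((B : ℂ) ^ (i + 1) * s))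
  simpa using h

lemma hasDerivAt_P_s (K B : ℝ) (N : ℕ) (s w : ℂ) :
    HasDerivAt (fun s => P K B N s w) (Ps K B N s w) s := by
  unfold P Ps
  apply HasDerivAt.const_mul
  have h := HasDerivAt.fun_finsetProd (u := Finset.range N)
    (f := fun j s => w - (B : ℂ) ^ (j + 1) * s) (f' := fun j => -(B : ℂ) ^ (j + 1)) (x := s)
    (fun i _ => by
      simpa using ((hasDerivAt_id s).const_mul ((B : ℂ) ^ (i + 1))).const_sub w)
  simpa using h

/-- `F(z, w)` -/
noncomputable def F (K B : ℝ) (N : ℕ) (z w : ℂ) : ℂ := P K B N (rt N z) w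

noncomputable def Fw (K B : ℝ) (N : ℕ) (z w : ℂ) : ℂ := Pw K B N (rt N z) w

noncomputable def Fz (K B : ℝ) (N : ℕ) (z w : ℂ) : ℂ := Ps K B N (rt N z) w * rt' N z

lemma hasDerivAt_F_w (K B : ℝ) (N : ℕ) (z w : ℂ) :
    HasDerivAt (fun w => F K B N z w) (Fw K B N z w) w := hasDerivAt_P_w K B N _ w

lemma hasDerivAt_F_z (K B : ℝ) (N : ℕ) {z : ℂ} (hz : ‖z‖ < 1) (w : ℂ) :
    HasDerivAt (fun z => F K B N z w) (Fz K B N z w) z := by
  have h := HasDerivAt.comp (h₂ := fun s => P K B N s w) (h := rt N) z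
    (hasDerivAt_P_s K B N (rt N z) w) (hasDerivAt_rt N hz)
  exact h

lemma measurable_F (K B : ℝ) (N : ℕ) : Measurable (fun p : ℂ × ℂ => F K B N p.1 p.2) := by
  unfold F P
  have h : Measurable (fun p : ℂ × ℂ => rt N p.1) := (measurable_rt N).comp measurable_fst
  fun_prop

lemma measurable_Fw (K B : ℝ) (N : ℕ) : Measurable (fun p : ℂ × ℂ => Fw K B N p.1 p.2) := by
  unfold Fw Pw
  have h : Measurable (fun p : ℂ × ℂ => rt N p.1) := (measurable_rt N).comp measurable_fst
  fun_prop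

lemma measurable_Fz (K B : ℝ) (N : ℕ) : Measurable (fun p : ℂ × ℂ => Fz K B N p.1 p.2) := by
  unfold Fz Ps
  have h : Measurable (fun p : ℂ × ℂ => rt N p.1) := (measurable_rt N).comp measurable_fst
  have h' : Measurable (fun p : ℂ × ℂ => rt' N p.1) := (measurable_rt' N).comp measurable_fst
  fun_prop

/-- lower bound away from the zeros -/
lemma le_norm_F (K B : ℝ) (hK : 0 < K) (N : ℕ) (z w : ℂ) (η : ℝ) (hη : 0 ≤ η)
    (h : ∀ j < N, η ≤ ‖w - (B : ℂ) ^ (j + 1) * rt N z‖) : K * η ^ N ≤ ‖F K B N z w‖ := by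
  unfold F P
  rw [norm_mul, Complex.norm_real, Real.norm_of_nonneg hK.le, norm_prod]
  apply mul_le_mul_of_nonneg_left _ hK.le
  calc η ^ N = ∏ _j ∈ Finset.range N, η := by rw [Finset.prod_const, Finset.card_range]
    _ ≤ _ := Finset.prod_le_prod (fun _ _ => hη)
        (fun j hj => h j (Finset.mem_range.mp hj))

open Polynomial in
/-- number of preimages in `w` -/
lemma card_w_le (K B : ℝ) (hK : 0 < K) (N : ℕ) (hN : 1 ≤ N) (z c : ℂ) (X : Finset ℂ)
    (hX : ∀ x ∈ X, F K B N z x = c) : X.card ≤ N := by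
  classical
  set Q : ℂ[X] := Polynomial.C (K : ℂ) *
    ∏ j ∈ Finset.range N, (Polynomial.X - Polynomial.C ((B : ℂ) ^ (j + 1) * rt N z)) with hQ
  have hdeg : Q.natDegree = N := by
    have hK' : (K : ℂ) ≠ 0 := by exact_mod_cast hK.ne'
    rw [hQ, natDegree_C_mul hK', natDegree_prod_of_monic _ _ (fun j _ => monic_X_sub_C _)]
    simp only [natDegree_X_sub_C, Finset.sum_const, Finset.card_range, smul_eq_mul, mul_one]
  have hdeg2 : (Q - Polynomial.C c).natDegree = N := by
    rw [natDegree_sub_C, hdeg]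
  have hne : Q - Polynomial.C c ≠ 0 := by
    intro h
    rw [h, natDegree_zero] at hdeg2
    omega
  have hsub : X ⊆ (Q - Polynomial.C c).roots.toFinset := by
    intro x hx
    rw [Multiset.mem_toFinset, mem_roots hne, IsRoot, eval_sub, eval_C, hQ, eval_mul, eval_C,
      eval_prod, ← hX x hx]
    simp [F, P]
  calc X.card ≤ (Q - Polynomial.C c).roots.toFinset.card := Finset.card_le_card hsub
    _ ≤ Multiset.card (Q - Polynomial.C c).roots := Multiset.toFinset_card_le _
    _ ≤ (Q - Polynomial.C c).natDegree := card_roots' _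
    _ = N := hdeg2

open Polynomial in
/-- number of preimages in `z` -/
lemma card_z_le (K B : ℝ) (hK : 0 < K) (hB : 0 < B) (N : ℕ) (hN : 1 ≤ N) (w c : ℂ)
    (X : Finset ℂ) (hX : ∀ x ∈ X, x ∈ Metric.ball (0:ℂ) 1 ∧ F K B N x w = c) : X.card ≤ N := by
  classical
  set Q : ℂ[X] := Polynomial.C (K : ℂ) *
    ∏ j ∈ Finset.range N, (Polynomial.C w - Polynomial.C ((B : ℂ) ^ (j + 1)) * Polynomial.X)
    with hQ
  have hB' : (B : ℂ) ≠ 0 := by exact_mod_cast hB.ne'
  have hK' : (K : ℂ) ≠ 0 := by exact_mod_cast hK.ne'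
  have hlin : ∀ j, (Polynomial.C w - Polynomial.C ((B : ℂ) ^ (j + 1)) * Polynomial.X).natDegree
      = 1 := by
    intro j
    have h1 : Polynomial.C w - Polynomial.C ((B : ℂ) ^ (j + 1)) * Polynomial.X =
        -(Polynomial.C ((B : ℂ) ^ (j + 1)) * Polynomial.X - Polynomial.C w) := by ring
    rw [h1, natDegree_neg, natDegree_sub_C, natDegree_C_mul_X _ (pow_ne_zero _ hB')]
  have hdeg : Q.natDegree = N := by
    rw [hQ, natDegree_C_mul hK', natDegree_prod]
    · rw [Finset.sum_congr rfl (fun j _ => hlin j)]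
      simp
    · intro j _ h0
      have := hlin j
      rw [h0, natDegree_zero] at this
      omega
  have hdeg2 : (Q - Polynomial.C c).natDegree = N := by
    rw [natDegree_sub_C, hdeg]
  have hne : Q - Polynomial.C c ≠ 0 := by
    intro h
    rw [h, natDegree_zero] at hdeg2
    omega
  have hcard : (X.image (rt N)).card = X.card := by
    apply Finset.card_image_of_injOn
    intro x hx y hy hxy
    exact rt_injOn hN (hX x hx).1 (hX y hy).1 hxy
  have hsub : X.image (rt N) ⊆ (Q - Polynomial.C c).roots.toFinset := by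
    intro y hy
    rw [Finset.mem_image] at hy
    obtain ⟨x, hx, rfl⟩ := hy
    rw [Multiset.mem_toFinset, mem_roots hne, IsRoot, eval_sub, eval_C, hQ, eval_mul, eval_C,
      eval_prod, ← (hX x hx).2]
    simp [F, P]
  calc X.card = (X.image (rt N)).card := hcard.symm
    _ ≤ (Q - Polynomial.C c).roots.toFinset.card := Finset.card_le_card hsub
    _ ≤ Multiset.card (Q - Polynomial.C c).roots := Multiset.toFinset_card_le _
    _ ≤ (Q - Polynomial.C c).natDegree := card_roots' _
    _ = N := hdeg2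

open Polynomial in
/-- many preimages in the disc -/
lemma exists_preimages (K B : ℝ) (hB : 1 < B) (N : ℕ) (hN : 1 ≤ N) (z : ℂ)
    (hz : ‖rt N z‖ * B ^ N ≤ 1 / 2) (hK : 1 < K * (1 / 2) ^ N) :
    ∃ Z : Finset ℂ, ∀ c ∈ Metric.ball (0:ℂ) 1 \ (Z : Set ℂ), ∃ X : Finset ℂ, X.card = N ∧
      ∀ x ∈ X, x ∈ Metric.ball (0:ℂ) 1 ∧ F K B N z x = c ∧
        deriv (fun w => F K B N z w) x ≠ 0 := by
  classical
  have hK0 : 0 < K := by
    by_contra h
    push Not at h
    have : K * (1 / 2) ^ N ≤ 0 := mul_nonpos_of_nonpos_of_nonneg h (by positivity)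
    linarith
  have hK' : (K : ℂ) ≠ 0 := by exact_mod_cast hK0.ne'
  set Q : ℂ[X] := Polynomial.C (K : ℂ) *
    ∏ j ∈ Finset.range N, (Polynomial.X - Polynomial.C ((B : ℂ) ^ (j + 1) * rt N z)) with hQ
  have hdeg : Q.natDegree = N := by
    rw [hQ, natDegree_C_mul hK', natDegree_prod_of_monic _ _ (fun j _ => monic_X_sub_C _)]
    simp only [natDegree_X_sub_C, Finset.sum_const, Finset.card_range, smul_eq_mul, mul_one]
  have heval : ∀ x, Q.eval x = F K B N z x := by
    intro x
    rw [hQ, eval_mul, eval_C, eval_prod]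
    simp [F, P]
  have hder : ∀ x, deriv (fun w => F K B N z w) x = Q.derivative.eval x := by
    intro x
    have : (fun w => F K B N z w) = fun w => Q.eval w := by
      funext w; rw [heval]
    rw [this]
    exact Polynomial.deriv Q
  have hdne : Q.derivative ≠ 0 := by
    intro h
    have := derivative_eq_zero.mp h
    omega
  refine ⟨(Q.derivative.roots.toFinset).image (fun x => Q.eval x), ?_⟩
  rintro c ⟨hc, hcZ⟩
  have hcn : ‖c‖ < 1 := mem_ball_zero_iff.mp hc
  have hdeg2 : (Q - Polynomial.C c).natDegree = N := by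
    rw [natDegree_sub_C, hdeg]
  have hne : Q - Polynomial.C c ≠ 0 := by
    intro h
    rw [h, natDegree_zero] at hdeg2
    omega
  have hroot : ∀ x, x ∈ (Q - Polynomial.C c).roots ↔ Q.eval x = c := by
    intro x
    rw [mem_roots hne, IsRoot, eval_sub, eval_C, sub_eq_zero]
  have hdx : ∀ x, Q.eval x = c → Q.derivative.eval x ≠ 0 := by
    intro x hx h0
    apply hcZ
    rw [Finset.mem_coe, Finset.mem_image]
    refine ⟨x, ?_, hx⟩
    rw [Multiset.mem_toFinset, mem_roots hdne]
    exact h0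
  have hnodup : (Q - Polynomial.C c).roots.Nodup := by
    rw [Multiset.nodup_iff_count_le_one]
    intro x
    by_contra hcount
    push Not at hcount
    rw [count_roots] at hcount
    have h1 := (one_lt_rootMultiplicity_iff_isRoot hne).mp hcount
    have h2 : Q.eval x = c := by
      have := h1.1
      rw [IsRoot, eval_sub, eval_C, sub_eq_zero] at this
      exact this
    apply hdx x h2
    have := h1.2
    rw [IsRoot, derivative_sub, derivative_C, sub_zero] at this
    exact this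
  refine ⟨(Q - Polynomial.C c).roots.toFinset, ?_, ?_⟩
  · rw [Multiset.toFinset_card_of_nodup hnodup]
    have := (IsAlgClosed.splits (Q - Polynomial.C c)).natDegree_eq_card_roots
    rw [← this, hdeg2]
  · intro x hx
    rw [Multiset.mem_toFinset, hroot] at hx
    refine ⟨?_, (heval x).symm.trans hx, ?_⟩
    · rw [mem_ball_zero_iff]
      by_contra hxn
      push Not at hxn
      have h1 : K * (1 / 2) ^ N ≤ ‖F K B N z x‖ := by
        apply le_norm_F K B hK0 N z x _ (by norm_num)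
        intro j hj
        have h2 : ‖(B : ℂ) ^ (j + 1) * rt N z‖ ≤ 1 / 2 := by
          rw [norm_mul, norm_pow, Complex.norm_real, Real.norm_of_nonneg (by linarith), mul_comm]
          refine le_trans (mul_le_mul_of_nonneg_left ?_ (norm_nonneg _)) hz
          exact pow_le_pow_right₀ hB.le (by omega)
        have h3 := norm_sub_norm_le x ((B : ℂ) ^ (j + 1) * rt N z)
        linarith
      rw [← heval, hx] at h1
      linarith
    · rw [hder]
      exact hdx x hx

end Pool.Agent.Lib.Pc848f8
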