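import Mathlib
import Pool.Agent.Lib.Pc848f8.Fam

open MeasureTheory Set Filter Topology
open scoped ENNReal

namespace Pool.Agent.Lib.Pc848f8

/-- In the annulus small values are taken at most once. -/
lemma annulus_unique (r K : ℝ) (hr0 : 0 < r) (_hr1 : r < 1) (hK : 0 < K) (N : ℕ) (hN : 1 ≤ N)
    (z c w w' : ℂ) (hc : ‖c‖ < K * (r / (8 * N)) ^ N)
    (hw1 : r < ‖w‖) (hw2 : ‖w‖ < 1) (hw1' : r < ‖w'‖) (hw2' : ‖w'‖ < 1)
    (h : F K (4 / r) N z w = c) (h' : F K (4 / r) N z w' = c) : w = w' := by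
  classical
  have hN' : (1 : ℝ) ≤ N := by exact_mod_cast hN
  set η : ℝ := r / (8 * N) with hη
  have hη0 : 0 < η := by positivity
  have hη1 : η ≤ r / 8 := by
    rw [hη]
    apply div_le_div_of_nonneg_left hr0.le (by norm_num)
    linarith
  set B : ℝ := 4 / r with hB
  have hB4 : 4 ≤ B := by
    rw [hB, le_div_iff₀ hr0]
    linarith
  have hBr : B * r = 4 := by rw [hB]; field_simp
  set α : ℕ → ℂ := fun j => (B : ℂ) ^ (j + 1) * rt N z with hα
  have hnα : ∀ i j, i < j → B * ‖α i‖ ≤ ‖α j‖ := by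
    intro i j hij
    simp only [hα, norm_mul, norm_pow, Complex.norm_real]
    rw [Real.norm_of_nonneg (by linarith), ← mul_assoc, ← pow_succ']
    apply mul_le_mul_of_nonneg_right _ (norm_nonneg _)
    exact pow_le_pow_right₀ (by linarith) (by omega)
  have hex : ∀ x : ℂ, F K B N z x = c → ∃ i < N, ‖x - α i‖ < η := by
    intro x hx
    by_contra hcon
    push Not at hcon
    have := le_norm_F K B hK N z x η hη0.le hcon
    rw [hx] at this
    linarith
  obtain ⟨i, hiN, hi⟩ := hex w h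
  obtain ⟨i', hiN', hi'⟩ := hex w' h'
  have hbd : ∀ x : ℂ, ∀ j, r < ‖x‖ → ‖x‖ < 1 → ‖x - α j‖ < η → r - η < ‖α j‖ ∧ ‖α j‖ < 1 + η := by
    intro x j h1 h2 h3
    have e1 := norm_sub_norm_le x (α j)
    have e2 := norm_sub_norm_le (α j) x
    rw [norm_sub_rev] at e2
    constructor <;> linarith
  have hb := hbd w i hw1 hw2 hi
  have hb' := hbd w' i' hw1' hw2' hi'
  have hnolt : ∀ a b, a < b → r - η < ‖α a‖ → ‖α b‖ < 1 + η → False := by
    intro a b hab h1 h2
    have h3 := hnα a b hab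
    have h4 : B * (r - η) ≤ B * ‖α a‖ := mul_le_mul_of_nonneg_left h1.le (by linarith)
    have h5 : B * η ≤ B * (r / 8) := mul_le_mul_of_nonneg_left hη1 (by linarith)
    have h6 : B * (r - η) = 4 - B * η := by rw [mul_sub, hBr]
    have h7 : B * (r / 8) = 1 / 2 := by
      rw [← mul_div_assoc, hBr]; norm_num
    linarith
  have hii : i = i' := by
    rcases lt_trichotomy i i' with hlt | heq | hgt
    · exact (hnolt i i' hlt hb.1 hb'.2).elim
    · exact heq
    · exact (hnolt i' i hgt hb'.1 hb.2).elim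
  subst hii
  -- the other zeros are far
  have hfar : ∀ j, j ≠ i → r / 2 ≤ ‖w - α j‖ := by
    intro j hj
    rcases lt_or_gt_of_ne hj with hlt | hgt
    · have h1 := hnα j i hlt
      have h2 : ‖α j‖ ≤ (1 + η) / B := by
        rw [le_div_iff₀ (by linarith), mul_comm]
        linarith [hb.2]
      have h3 : (1 + η) / B ≤ 5 / 4 * (r / 4) := by
        rw [div_le_iff₀ (by linarith)]
        have : 5 / 4 * (r / 4) * B = 5 / 4 := by
          calc 5 / 4 * (r / 4) * B = 5 / 4 * (B * r) / 4 := by ring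
            _ = 5 / 4 := by rw [hBr]; norm_num
        linarith
      have h4 := norm_sub_norm_le w (α j)
      linarith
    · have h1 := hnα i j hgt
      have h4 : B * (r - η) ≤ B * ‖α i‖ := mul_le_mul_of_nonneg_left hb.1.le (by linarith)
      have h5 : B * η ≤ B * (r / 8) := mul_le_mul_of_nonneg_left hη1 (by linarith)
      have h6 : B * (r - η) = 4 - B * η := by rw [mul_sub, hBr]
      have h7 : B * (r / 8) = 1 / 2 := by
        rw [← mul_div_assoc, hBr]; norm_num
      have h8 := norm_sub_norm_le (α j) w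
      rw [norm_sub_rev] at h8
      linarith
  by_contra hne
  set t : ℂ := w' - w with ht
  have ht0 : 0 < ‖t‖ := by
    rw [norm_pos_iff, ht, sub_ne_zero]
    exact fun h => hne h.symm
  have ht2 : ‖t‖ < 2 * η := by
    have : t = (w' - α i) - (w - α i) := by rw [ht]; ring
    rw [this]
    refine lt_of_le_of_lt (norm_sub_le _ _) ?_
    linarith
  have hK' : (K : ℂ) ≠ 0 := by exact_mod_cast hK.ne'
  have hprod : (w - α i) * ∏ j ∈ (Finset.range N).erase i, (w - α j) =
      (w' - α i) * ∏ j ∈ (Finset.range N).erase i, (w' - α j) := by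
    have hi_mem : i ∈ Finset.range N := Finset.mem_range.mpr hiN
    rw [Finset.mul_prod_erase (Finset.range N) (fun j => w - α j) hi_mem,
      Finset.mul_prod_erase (Finset.range N) (fun j => w' - α j) hi_mem]
    have h2 : F K B N z w = F K B N z w' := by rw [h, h']
    unfold F P at h2
    exact mul_left_cancel₀ hK' h2
  have hA : ∏ j ∈ (Finset.range N).erase i, (w - α j) ≠ 0 := by
    rw [Finset.prod_ne_zero_iff]
    intro j hj h0
    have := hfar j (Finset.ne_of_mem_erase hj)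
    rw [h0, norm_zero] at this
    linarith
  have hfac : ∏ j ∈ (Finset.range N).erase i, (w' - α j) =
      (∏ j ∈ (Finset.range N).erase i, (w - α j)) *
        ∏ j ∈ (Finset.range N).erase i, (1 + t / (w - α j)) := by
    rw [← Finset.prod_mul_distrib]
    apply Finset.prod_congr rfl
    intro j hj
    have hne0 : w - α j ≠ 0 := by
      intro h0
      have := hfar j (Finset.ne_of_mem_erase hj)
      rw [h0, norm_zero] at this
      linarith
    field_simp
    rw [ht]; ring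
  rw [hfac] at hprod
  have heq : -t = (w' - α i) *
      (∏ j ∈ (Finset.range N).erase i, (1 + t / (w - α j)) - 1) := by
    have h1 : (w - α i) = (w' - α i) * ∏ j ∈ (Finset.range N).erase i, (1 + t / (w - α j)) := by
      apply mul_right_cancel₀ hA
      rw [hprod]; ring
    have h2 : (w - α i) = (w' - α i) - t := by rw [ht]; ring
    rw [mul_sub, mul_one, ← h1, h2]; ring
  have hsum : ∑ j ∈ (Finset.range N).erase i, ‖t / (w - α j)‖ ≤ N * (‖t‖ * (2 / r)) := by
    have h1 : ∀ j ∈ (Finset.range N).erase i, ‖t / (w - α j)‖ ≤ ‖t‖ * (2 / r) := by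
      intro j hj
      rw [norm_div, div_eq_mul_inv]
      apply mul_le_mul_of_nonneg_left _ (norm_nonneg _)
      have := hfar j (Finset.ne_of_mem_erase hj)
      rw [show (2 / r) = (r / 2)⁻¹ by rw [inv_div]]
      exact inv_anti₀ (by linarith) this
    refine (Finset.sum_le_sum h1).trans ?_
    rw [Finset.sum_const, nsmul_eq_mul]
    apply mul_le_mul_of_nonneg_right _ (by positivity)
    have : ((Finset.range N).erase i).card ≤ N := by
      refine (Finset.card_erase_le).trans ?_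
      simp
    exact_mod_cast this
  have hu0 : 0 ≤ N * (‖t‖ * (2 / r)) := by positivity
  have hu1 : N * (‖t‖ * (2 / r)) ≤ 1 := by
    have h1 : N * (‖t‖ * (2 / r)) ≤ N * (2 * η * (2 / r)) := by
      apply mul_le_mul_of_nonneg_left _ (by positivity)
      exact mul_le_mul_of_nonneg_right ht2.le (by positivity)
    refine h1.trans ?_
    rw [hη]
    have : (N : ℝ) * (2 * (r / (8 * N)) * (2 / r)) = 1 / 2 := by
      field_simp
      norm_num
    rw [this]; norm_num
  have hexp : Real.exp (∑ j ∈ (Finset.range N).erase i, ‖t / (w - α j)‖) - 1 ≤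
      2 * (N * (‖t‖ * (2 / r))) := by
    have h1 : Real.exp (∑ j ∈ (Finset.range N).erase i, ‖t / (w - α j)‖) ≤
        Real.exp (N * (‖t‖ * (2 / r))) := Real.exp_le_exp.mpr hsum
    have h2 := Real.abs_exp_sub_one_le (x := N * (‖t‖ * (2 / r))) (by rw [abs_of_nonneg hu0]; exact hu1)
    rw [abs_of_nonneg hu0] at h2
    have h3 := le_abs_self (Real.exp (N * (‖t‖ * (2 / r))) - 1)
    linarith
  have hfin : ‖t‖ ≤ η * (2 * (N * (‖t‖ * (2 / r)))) := by
    have h1 : ‖t‖ = ‖w' - α i‖ *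
        ‖∏ j ∈ (Finset.range N).erase i, (1 + t / (w - α j)) - 1‖ := by
      rw [← norm_mul, ← heq, norm_neg]
    have h2 := Finset.norm_prod_one_add_sub_one_le ((Finset.range N).erase i)
      (fun j => t / (w - α j))
    have h3 := h2.trans hexp
    calc ‖t‖ = ‖w' - α i‖ *
        ‖∏ j ∈ (Finset.range N).erase i, (1 + t / (w - α j)) - 1‖ := h1
      _ ≤ _ := mul_le_mul hi'.le h3 (norm_nonneg _) hη0.le
  have : η * (2 * (N * (‖t‖ * (2 / r)))) = ‖t‖ / 2 := by
    rw [hη]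
    field_simp
    norm_num
  rw [this] at hfin
  linarith

/-- energy in the `w` direction -/
noncomputable def Ew (K B : ℝ) (N : ℕ) (z : ℂ) (S : Set ℂ) : ℝ≥0∞ :=
  ∫⁻ w in S, ENNReal.ofReal (‖Fw K B N z w‖ ^ 2) * sd (F K B N z w)

/-- energy in the `z` direction -/
noncomputable def Ez (K B : ℝ) (N : ℕ) (w : ℂ) : ℝ≥0∞ :=
  ∫⁻ z in Metric.ball (0:ℂ) 1, ENNReal.ofReal (‖Fz K B N z w‖ ^ 2) * sd (F K B N z w)

lemma Ew_eq (K B : ℝ) (N : ℕ) (z : ℂ) (S : Set ℂ) : Ew K B N z S =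
    ∫⁻ w in S, ENNReal.ofReal (‖deriv (fun w => F K B N z w) w‖ ^ 2) * sd (F K B N z w) := by
  unfold Ew
  congr 1
  ext w
  rw [(hasDerivAt_F_w K B N z w).deriv]

lemma Ez_eq (K B : ℝ) (N : ℕ) (w : ℂ) : Ez K B N w =
    ∫⁻ z in Metric.ball (0:ℂ) 1,
      ENNReal.ofReal (‖deriv (fun z => F K B N z w) z‖ ^ 2) * sd (F K B N z w) := by
  unfold Ez
  apply setLIntegral_congr_fun measurableSet_ball
  intro z hz
  simp only
  rw [(hasDerivAt_F_z K B N (mem_ball_zero_iff.mp hz) w).deriv]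

lemma Ew_le (K B : ℝ) (N : ℕ) (z : ℂ) (S : Set ℂ) (hS : MeasurableSet S) (C : ℝ) (M M' : ℕ)
    (h1 : ∀ c : ℂ, ‖c‖ < C → ∀ X : Finset ℂ, (∀ x ∈ X, x ∈ S ∧ F K B N z x = c) → X.card ≤ M)
    (h2 : ∀ c : ℂ, ∀ X : Finset ℂ, (∀ x ∈ X, x ∈ S ∧ F K B N z x = c) → X.card ≤ M') :
    Ew K B N z S ≤ M * sph univ + M' * sph {c | C ≤ ‖c‖} := by
  rw [Ew_eq]
  exact area_le (fun w => F K B N z w) univ S isOpen_univ
    (fun w _ => (hasDerivAt_F_w K B N z w).differentiableAt.differentiableWithinAt) hS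
    (subset_univ _) C M M' h1 h2

lemma Ez_le (K B : ℝ) (N : ℕ) (w : ℂ) (C : ℝ) (M M' : ℕ)
    (h1 : ∀ c : ℂ, ‖c‖ < C → ∀ X : Finset ℂ,
      (∀ x ∈ X, x ∈ Metric.ball (0:ℂ) 1 ∧ F K B N x w = c) → X.card ≤ M)
    (h2 : ∀ c : ℂ, ∀ X : Finset ℂ,
      (∀ x ∈ X, x ∈ Metric.ball (0:ℂ) 1 ∧ F K B N x w = c) → X.card ≤ M') :
    Ez K B N w ≤ M * sph univ + M' * sph {c | C ≤ ‖c‖} := by
  rw [Ez_eq]
  exact area_le (fun z => F K B N z w) (Metric.ball 0 1) (Metric.ball 0 1) Metric.isOpen_ball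
    (fun z hz => (hasDerivAt_F_z K B N (mem_ball_zero_iff.mp hz) w).differentiableAt.differentiableWithinAt)
    measurableSet_ball Subset.rfl C M M' h1 h2

lemma Ew_le_total (K B : ℝ) (hK : 0 < K) (N : ℕ) (hN : 1 ≤ N) (z : ℂ) (S : Set ℂ)
    (hS : MeasurableSet S) : Ew K B N z S ≤ N * sph univ := by
  have h := Ew_le K B N z S hS 0 0 N (fun c hc => absurd hc (not_lt.mpr (norm_nonneg c)))
    (fun c X hX => card_w_le K B hK N hN z c X (fun x hx => (hX x hx).2))
  simpa using h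

lemma Ez_le_total (K B : ℝ) (hK : 0 < K) (hB : 0 < B) (N : ℕ) (hN : 1 ≤ N) (w : ℂ) :
    Ez K B N w ≤ N * sph univ := by
  have h := Ez_le K B N w 0 0 N (fun c hc => absurd hc (not_lt.mpr (norm_nonneg c)))
    (fun c X hX => card_z_le K B hK hB N hN w c X hX)
  simpa using h

/-- data of the construction for a given `N` -/
structure Data (r : ℝ) (N : ℕ) (K : ℝ) : Prop where
  hN : 1 ≤ N
  hK : 0 < K
  tail : N * sph {c : ℂ | K * (r / (8 * N)) ^ N ≤ ‖c‖} ≤ 1
  big : 1 < K * (1 / 2) ^ N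

lemma exists_data (r : ℝ) (hr0 : 0 < r) (N : ℕ) (hN : 1 ≤ N) : ∃ K, Data r N K := by
  have hN' : (N : ℝ≥0∞) ≠ 0 := by exact_mod_cast (by omega : N ≠ 0)
  obtain ⟨C, hC0, hC⟩ := exists_tail ((N : ℝ≥0∞)⁻¹)
    (ENNReal.inv_pos.mpr (ENNReal.natCast_ne_top N))
  have hp : 0 < (r / (8 * N)) ^ N := by
    have : (0 : ℝ) < N := by exact_mod_cast hN
    positivity
  refine ⟨max (C / (r / (8 * N)) ^ N) (2 * 2 ^ N), hN, ?_, ?_, ?_⟩
  · exact lt_max_of_lt_right (by positivity)
  · have h1 : C ≤ max (C / (r / (8 * N)) ^ N) (2 * 2 ^ N) * (r / (8 * N)) ^ N := by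
      rw [← div_le_iff₀ hp]
      exact le_max_left _ _
    have h2 : sph {c : ℂ | max (C / (r / (8 * N)) ^ N) (2 * 2 ^ N) * (r / (8 * N)) ^ N ≤ ‖c‖} ≤
        (N : ℝ≥0∞)⁻¹ := by
      refine (measure_mono ?_).trans hC.le
      intro c hc
      exact h1.trans hc
    calc (N : ℝ≥0∞) * _ ≤ N * (N : ℝ≥0∞)⁻¹ := by gcongr
      _ = 1 := ENNReal.mul_inv_cancel hN' (ENNReal.natCast_ne_top N)
  · have h1 : (2 : ℝ) * 2 ^ N ≤ max (C / (r / (8 * N)) ^ N) (2 * 2 ^ N) := le_max_right _ _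
    have h2 : (2 * 2 ^ N) * (1 / 2 : ℝ) ^ N = 2 := by
      rw [mul_assoc, ← mul_pow]; norm_num
    have h3 : (2 * 2 ^ N) * (1 / 2 : ℝ) ^ N ≤
        max (C / (r / (8 * N)) ^ N) (2 * 2 ^ N) * (1 / 2 : ℝ) ^ N :=
      mul_le_mul_of_nonneg_right h1 (by positivity)
    linarith

lemma Ew_annulus (r : ℝ) (hr0 : 0 < r) (hr1 : r < 1) (N : ℕ) (K : ℝ) (hD : Data r N K) (z : ℂ) :
    Ew K (4 / r) N z {w | r < ‖w‖ ∧ ‖w‖ < 1} ≤ sph univ + 1 := by
  have hm : MeasurableSet {w : ℂ | r < ‖w‖ ∧ ‖w‖ < 1} :=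
    (measurableSet_lt measurable_const measurable_norm).inter
      (measurableSet_lt measurable_norm measurable_const)
  have h := Ew_le K (4 / r) N z {w | r < ‖w‖ ∧ ‖w‖ < 1} hm (K * (r / (8 * N)) ^ N) 1 N ?_
    (fun c X hX => card_w_le K _ hD.hK N hD.hN z c X (fun x hx => (hX x hx).2))
  · refine h.trans ?_
    rw [Nat.cast_one, one_mul]
    exact add_le_add le_rfl hD.tail
  · intro c hc X hX
    rw [Finset.card_le_one]
    intro a ha b hb
    exact annulus_unique r K hr0 hr1 hD.hK N hD.hN z c a b hc (hX a ha).1.1 (hX a ha).1.2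
      (hX b hb).1.1 (hX b hb).1.2 (hX a ha).2 (hX b hb).2

lemma Ew_far (r : ℝ) (hr0 : 0 < r) (hr1 : r < 1) (N : ℕ) (K : ℝ) (hD : Data r N K) (z : ℂ)
    (hz : 2 ≤ 4 / r * ‖rt N z‖) : Ew K (4 / r) N z (Metric.ball 0 1) ≤ 1 := by
  have hN' : (1 : ℝ) ≤ N := by exact_mod_cast hD.hN
  have hη1 : r / (8 * N) ≤ 1 := by
    rw [div_le_one (by positivity)]
    linarith
  have hB : (1:ℝ) ≤ 4 / r := by
    rw [le_div_iff₀ hr0]; linarith
  have h := Ew_le K (4 / r) N z (Metric.ball 0 1) measurableSet_ball (K * (r / (8 * N)) ^ N) 0 N ?_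
    (fun c X hX => card_w_le K _ hD.hK N hD.hN z c X (fun x hx => (hX x hx).2))
  · refine h.trans ?_
    rw [Nat.cast_zero, zero_mul, zero_add]
    exact hD.tail
  · intro c hc X hX
    rw [Nat.le_zero, Finset.card_eq_zero, Finset.eq_empty_iff_forall_notMem]
    intro x hx
    obtain ⟨hx1, hx2⟩ := hX x hx
    have hx1' : ‖x‖ < 1 := mem_ball_zero_iff.mp hx1
    have := le_norm_F K (4 / r) hD.hK N z x (r / (8 * N)) (by positivity) ?_
    · rw [hx2] at this
      linarith
    · intro j _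
      have h2 : 2 ≤ ‖((4 / r : ℝ) : ℂ) ^ (j + 1) * rt N z‖ := by
        rw [norm_mul, norm_pow, Complex.norm_real, Real.norm_of_nonneg (by linarith)]
        refine hz.trans ?_
        apply mul_le_mul_of_nonneg_right _ (norm_nonneg _)
        exact le_self_pow₀ hB (by omega)
      have h3 := norm_sub_norm_le (((4 / r : ℝ) : ℂ) ^ (j + 1) * rt N z) x
      rw [norm_sub_rev] at h3
      linarith

lemma Ez_far (r : ℝ) (hr0 : 0 < r) (hr1 : r < 1) (N : ℕ) (K : ℝ) (hD : Data r N K) (w : ℂ)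
    (hw : ‖w‖ < 1) (him : 5 / N < |w.im|) : Ez K (4 / r) N w ≤ 1 := by
  have hN' : (1 : ℝ) ≤ N := by exact_mod_cast hD.hN
  have hN0 : (0 : ℝ) < N := by linarith
  have hη1 : r / (8 * N) ≤ 1 / N := by
    rw [div_le_div_iff₀ (by positivity) hN0]
    nlinarith
  have hη2 : r / (8 * N) ≤ 1 := hη1.trans (by rw [div_le_one hN0]; exact hN')
  have hB : (1:ℝ) ≤ 4 / r := by
    rw [le_div_iff₀ hr0]; linarith
  have h := Ez_le K (4 / r) N w (K * (r / (8 * N)) ^ N) 0 N ?_
    (fun c X hX => card_z_le K _ hD.hK (by positivity) N hD.hN w c X hX)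
  · refine h.trans ?_
    rw [Nat.cast_zero, zero_mul, zero_add]
    exact hD.tail
  · intro c hc X hX
    rw [Nat.le_zero, Finset.card_eq_zero, Finset.eq_empty_iff_forall_notMem]
    intro x hx
    obtain ⟨hx1, hx2⟩ := hX x hx
    have hx1' : ‖x‖ < 1 := mem_ball_zero_iff.mp hx1
    have := le_norm_F K (4 / r) hD.hK N x w (r / (8 * N)) (by positivity) ?_
    · rw [hx2] at this
      linarith
    · intro j _
      by_contra hcon
      push Not at hcon
      set a : ℂ := ((4 / r : ℝ) : ℂ) ^ (j + 1) * rt N x with ha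
      have h1 : ‖a‖ ≤ 2 := by
        have := norm_sub_norm_le a w
        rw [norm_sub_rev] at this
        linarith
      have h2 : |a.im| ≤ ‖a‖ * (2 / N) := by
        have e1 : a.im = (4 / r) ^ (j + 1) * (rt N x).im := by
          rw [ha, ← Complex.ofReal_pow, Complex.im_ofReal_mul]
        have e2 : ‖a‖ = (4 / r) ^ (j + 1) * ‖rt N x‖ := by
          rw [ha, norm_mul, norm_pow, Complex.norm_real, Real.norm_of_nonneg (by linarith)]
        rw [e1, e2, abs_mul, abs_of_nonneg (by positivity), mul_assoc]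
        exact mul_le_mul_of_nonneg_left (abs_im_rt_le hD.hN hx1') (by positivity)
      have h3 : |w.im - a.im| ≤ ‖w - a‖ := by
        have := Complex.abs_im_le_norm (w - a)
        rwa [Complex.sub_im] at this
      have h4 : |w.im| ≤ |w.im - a.im| + |a.im| := by
        have := abs_add_le (w.im - a.im) a.im
        rwa [sub_add_cancel] at this
      have h5 : ‖a‖ * (2 / N) ≤ 2 * (2 / N) := mul_le_mul_of_nonneg_right h1 (by positivity)
      have h6 : 2 * (2 / (N:ℝ)) = 4 / N := by ring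
      have h7 : 4 / (N:ℝ) + 1 / N = 5 / N := by ring
      linarith

end Pool.Agent.Lib.Pc848f8
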