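import Mathlib
import Pool.Agent.Lib.Pc848f8.Energy

open MeasureTheory Set Filter Topology
open scoped ENNReal

namespace Pool.Agent.Lib.Pc848f8

lemma volume_strip (t : ℝ) :
    volume {w : ℂ | ‖w‖ < 1 ∧ |w.im| ≤ t} ≤ ENNReal.ofReal (4 * t) := by
  have hsub : {w : ℂ | ‖w‖ < 1 ∧ |w.im| ≤ t} ⊆
      Complex.measurableEquivRealProd ⁻¹' (Icc (-1) 1 ×ˢ Icc (-t) t) := by
    rintro w ⟨h1, h2⟩
    have h3 := (Complex.abs_re_le_norm w).trans h1.le
    simp only [mem_preimage, Complex.measurableEquivRealProd_apply, mem_prod, mem_Icc]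
    exact ⟨abs_le.mp h3, abs_le.mp h2⟩
  refine (measure_mono hsub).trans ?_
  rw [Complex.volume_preserving_equiv_real_prod.measure_preimage_equiv,
    Measure.volume_eq_prod, Measure.prod_prod, Real.volume_Icc, Real.volume_Icc,
    ← ENNReal.ofReal_mul (by norm_num)]
  apply ENNReal.ofReal_le_ofReal
  linarith

lemma volume_unit_ball : volume (Metric.ball (0:ℂ) 1) = NNReal.pi := by
  rw [Complex.volume_ball]
  simp

/-- integral of the `z`-energies -/
lemma total_Ez (r : ℝ) (hr0 : 0 < r) (hr1 : r < 1) (N : ℕ) (K : ℝ) (hD : Data r N K) :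
    ∫⁻ w in Metric.ball (0:ℂ) 1, Ez K (4 / r) N w ≤ 20 * sph univ + NNReal.pi := by
  have hN0 : (0 : ℝ) < N := by exact_mod_cast hD.hN
  have hN' : (N : ℝ≥0∞) ≠ 0 := by exact_mod_cast (by have := hD.hN; omega : N ≠ 0)
  set A : Set ℂ := {w : ℂ | ‖w‖ < 1 ∧ |w.im| ≤ 5 / N} with hA
  set A' : Set ℂ := {w : ℂ | ‖w‖ < 1 ∧ 5 / N < |w.im|} with hA'
  have hAm : MeasurableSet A := (measurableSet_lt measurable_norm measurable_const).inter
    (measurableSet_le (Complex.measurable_im.abs) measurable_const)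
  have hAm' : MeasurableSet A' := (measurableSet_lt measurable_norm measurable_const).inter
    (measurableSet_lt measurable_const (Complex.measurable_im.abs))
  have hun : Metric.ball (0:ℂ) 1 = A ∪ A' := by
    ext w
    simp only [mem_ball_zero_iff, hA, hA', mem_union, mem_ofPred_eq]
    constructor
    · intro h
      rcases le_or_gt |w.im| (5 / N) with h1 | h1
      · exact Or.inl ⟨h, h1⟩
      · exact Or.inr ⟨h, h1⟩
    · rintro (h | h) <;> exact h.1
  rw [hun]
  refine (lintegral_union_le _ _ _).trans (add_le_add ?_ ?_)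
  · calc ∫⁻ w in A, Ez K (4 / r) N w ≤ ∫⁻ _w in A, N * sph univ :=
          setLIntegral_mono' hAm (fun w _ => Ez_le_total K _ hD.hK (by positivity) N hD.hN w)
      _ = N * sph univ * volume A := by rw [setLIntegral_const]
      _ ≤ N * sph univ * ENNReal.ofReal (4 * (5 / N)) := by
          gcongr
          exact volume_strip _
      _ = 20 * sph univ := by
          have : ENNReal.ofReal (4 * (5 / N)) = 20 * (N : ℝ≥0∞)⁻¹ := by
            rw [show (4 * (5 / N) : ℝ) = 20 * (N : ℝ)⁻¹ by ring,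
              ENNReal.ofReal_mul (by norm_num), ENNReal.ofReal_inv_of_pos hN0,
              ENNReal.ofReal_natCast]
            norm_num
          rw [this]
          calc (N : ℝ≥0∞) * sph univ * (20 * (N : ℝ≥0∞)⁻¹)
              = 20 * sph univ * ((N : ℝ≥0∞) * (N : ℝ≥0∞)⁻¹) := by ring
            _ = 20 * sph univ := by
              rw [ENNReal.mul_inv_cancel hN' (ENNReal.natCast_ne_top N), mul_one]
  · calc ∫⁻ w in A', Ez K (4 / r) N w ≤ ∫⁻ _w in A', 1 :=
          setLIntegral_mono' hAm' (fun w hw => Ez_far r hr0 hr1 N K hD w hw.1 hw.2)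
      _ = volume A' := by rw [setLIntegral_const, one_mul]
      _ ≤ volume (Metric.ball (0:ℂ) 1) := measure_mono (fun w hw => mem_ball_zero_iff.mpr hw.1)
      _ = _ := volume_unit_ball

lemma lint_split (g : ℂ → ℝ≥0∞) (S A A' : Set ℂ) (h : S = A ∪ A') :
    ∫⁻ z in S, g z ≤ (∫⁻ z in A, g z) + ∫⁻ z in A', g z := by
  rw [h]
  exact lintegral_union_le _ _ _

lemma total_Ew (r : ℝ) (hr0 : 0 < r) (hr1 : r < 1) (N : ℕ) (K : ℝ) (hD : Data r N K) :
    ∫⁻ z in Metric.ball (0:ℂ) 1, Ew K (4 / r) N z (Metric.ball 0 1) ≤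
      NNReal.pi * sph univ + NNReal.pi := by
  have hN0 : (0 : ℝ) < N := by exact_mod_cast hD.hN
  set A : Set ℂ := {z : ℂ | ‖z‖ < 1 ∧ 4 / r * ‖rt N z‖ < 2} with hA
  set A' : Set ℂ := {z : ℂ | ‖z‖ < 1 ∧ 2 ≤ 4 / r * ‖rt N z‖} with hA'
  have hm : Measurable (fun z : ℂ => 4 / r * ‖rt N z‖) := (measurable_rt N).norm.const_mul _
  have hAm : MeasurableSet A := (measurableSet_lt measurable_norm measurable_const).inter
    (measurableSet_lt hm measurable_const)
  have hAm' : MeasurableSet A' := (measurableSet_lt measurable_norm measurable_const).inter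
    (measurableSet_le measurable_const hm)
  have hun : Metric.ball (0:ℂ) 1 = A ∪ A' := by
    ext w
    simp only [mem_ball_zero_iff, hA, hA', mem_union, mem_ofPred_eq]
    constructor
    · intro h
      rcases lt_or_ge (4 / r * ‖rt N w‖) 2 with h1 | h1
      · exact Or.inl ⟨h, h1⟩
      · exact Or.inr ⟨h, h1⟩
    · rintro (h | h) <;> exact h.1
  have hsplit : ∫⁻ z in Metric.ball (0:ℂ) 1, Ew K (4 / r) N z (Metric.ball 0 1) ≤
      (∫⁻ z in A, Ew K (4 / r) N z (Metric.ball 0 1)) +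
      ∫⁻ z in A', Ew K (4 / r) N z (Metric.ball 0 1) :=
    lint_split (fun z => Ew K (4 / r) N z (Metric.ball 0 1)) _ A A' hun
  refine hsplit.trans (add_le_add ?_ ?_)
  · have hsub : A ⊆ Metric.ball 1 ((1 / 2) ^ N) := by
      rintro z ⟨h1, h2⟩
      rw [Metric.mem_ball, dist_comm, dist_eq_norm, ← norm_rt_pow hD.hN h1]
      apply pow_lt_pow_left₀ _ (norm_nonneg _) (by have := hD.hN; omega)
      rw [← lt_div_iff₀' (by positivity)] at h2
      refine lt_of_lt_of_le h2 ?_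
      rw [div_div_eq_mul_div, div_le_iff₀ (by norm_num)]
      linarith
    have hvol : volume A ≤ ENNReal.ofReal ((1 / 4) ^ N) * NNReal.pi := by
      refine (measure_mono hsub).trans ?_
      rw [Complex.volume_ball, ← ENNReal.ofReal_pow (by positivity), ← pow_mul, mul_comm N 2,
        pow_mul]
      norm_num
    have hle : (N : ℝ≥0∞) * ENNReal.ofReal ((1 / 4) ^ N) ≤ 1 := by
      rw [← ENNReal.ofReal_natCast, ← ENNReal.ofReal_mul (Nat.cast_nonneg _)]
      rw [ENNReal.ofReal_le_one]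
      have h1 : (N : ℝ) ≤ 4 ^ N := by
        exact_mod_cast (Nat.lt_pow_self (show 1 < 4 by norm_num)).le
      calc (N : ℝ) * (1 / 4) ^ N ≤ 4 ^ N * (1 / 4) ^ N :=
            mul_le_mul_of_nonneg_right h1 (by positivity)
        _ = 1 := by rw [← mul_pow]; norm_num
    calc ∫⁻ z in A, Ew K (4 / r) N z (Metric.ball 0 1) ≤ ∫⁻ _z in A, N * sph univ :=
          setLIntegral_mono' hAm
            (fun z _ => Ew_le_total K _ hD.hK N hD.hN z _ measurableSet_ball)
      _ = N * sph univ * volume A := by rw [setLIntegral_const]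
      _ ≤ N * sph univ * (ENNReal.ofReal ((1 / 4) ^ N) * NNReal.pi) := by gcongr
      _ = (N * ENNReal.ofReal ((1 / 4) ^ N)) * (NNReal.pi * sph univ) := by ring
      _ ≤ 1 * (NNReal.pi * sph univ) := by gcongr
      _ = _ := one_mul _
  · calc ∫⁻ z in A', Ew K (4 / r) N z (Metric.ball 0 1) ≤ ∫⁻ _z in A', 1 :=
          setLIntegral_mono' hAm' (fun z hz => Ew_far r hr0 hr1 N K hD z hz.2)
      _ = volume A' := by rw [setLIntegral_const, one_mul]
      _ ≤ volume (Metric.ball (0:ℂ) 1) := measure_mono (fun w hw => mem_ball_zero_iff.mpr hw.1)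
      _ = _ := volume_unit_ball

/-- `z`-energy density -/
noncomputable def ez (K B : ℝ) (N : ℕ) (z w : ℂ) : ℝ≥0∞ :=
  ENNReal.ofReal (‖Fz K B N z w‖ ^ 2) * sd (F K B N z w)

/-- `w`-energy density -/
noncomputable def ew (K B : ℝ) (N : ℕ) (z w : ℂ) : ℝ≥0∞ :=
  ENNReal.ofReal (‖Fw K B N z w‖ ^ 2) * sd (F K B N z w)

lemma measurable_ez (K B : ℝ) (N : ℕ) : Measurable (fun p : ℂ × ℂ => ez K B N p.1 p.2) := by
  unfold ez
  exact (((measurable_Fz K B N).norm.pow_const 2).ennreal_ofReal).mul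
    (measurable_sd.comp (measurable_F K B N))

lemma measurable_ew (K B : ℝ) (N : ℕ) : Measurable (fun p : ℂ × ℂ => ew K B N p.1 p.2) := by
  unfold ew
  exact (((measurable_Fw K B N).norm.pow_const 2).ennreal_ofReal).mul
    (measurable_sd.comp (measurable_F K B N))

lemma Ez_eq_ez (K B : ℝ) (N : ℕ) (w : ℂ) :
    Ez K B N w = ∫⁻ z in Metric.ball (0:ℂ) 1, ez K B N z w := rfl

lemma Ew_eq_ew (K B : ℝ) (N : ℕ) (z : ℂ) (S : Set ℂ) :
    Ew K B N z S = ∫⁻ w in S, ew K B N z w := rfl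

/-- the total two-variable energy density -/
noncomputable def G (K B : ℝ) (N : ℕ) (z w : ℂ) : ℝ≥0∞ := ez K B N z w + ew K B N z w

lemma G_eq (K B : ℝ) (N : ℕ) (z w : ℂ) : G K B N z w =
    ENNReal.ofReal (‖Fz K B N z w‖ ^ 2 + ‖Fw K B N z w‖ ^ 2) * sd (F K B N z w) := by
  unfold G ez ew
  rw [ENNReal.ofReal_add (by positivity) (by positivity), add_mul]

lemma measurable_G (K B : ℝ) (N : ℕ) : Measurable (fun p : ℂ × ℂ => G K B N p.1 p.2) :=
  (measurable_ez K B N).add (measurable_ew K B N)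

lemma lint_G_aux (ez ew : ℂ → ℂ → ℝ≥0∞) (S : Set ℂ)
    (hm1 : Measurable (fun p : ℂ × ℂ => ez p.1 p.2)) (a b : ℝ≥0∞)
    (ha : ∫⁻ w in S, ∫⁻ z in S, ez z w ≤ a) (hb : ∫⁻ z in S, ∫⁻ w in S, ew z w ≤ b) :
    ∫⁻ z in S, ∫⁻ w in S, (ez z w + ew z w) ≤ a + b := by
  have hin : ∀ z, ∫⁻ w in S, (ez z w + ew z w) =
      (∫⁻ w in S, ez z w) + ∫⁻ w in S, ew z w := by
    intro z
    rw [lintegral_add_left]
    exact hm1.comp (measurable_const.prodMk measurable_id)
  have hme : Measurable (fun z : ℂ => ∫⁻ w in S, ez z w) :=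
    hm1.lintegral_prod_right'
  rw [lintegral_congr hin, lintegral_add_left hme]
  refine add_le_add ?_ hb
  rw [lintegral_lintegral_swap hm1.aemeasurable]
  exact ha

lemma total_G (r : ℝ) (hr0 : 0 < r) (hr1 : r < 1) (N : ℕ) (K : ℝ) (hD : Data r N K) :
    ∫⁻ z in Metric.ball (0:ℂ) 1, ∫⁻ w in Metric.ball (0:ℂ) 1, G K (4 / r) N z w ≤
      (20 * sph univ + NNReal.pi) + (NNReal.pi * sph univ + NNReal.pi) :=
  lint_G_aux (ez K (4 / r) N) (ew K (4 / r) N) (Metric.ball 0 1) (measurable_ez K (4 / r) N)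
    _ _ (total_Ez r hr0 hr1 N K hD) (total_Ew r hr0 hr1 N K hD)

/-- lower bound at the special slice -/
lemma exists_big_slice (r : ℝ) (hr0 : 0 < r) (hr1 : r < 1) (N : ℕ) (K : ℝ) (hD : Data r N K) :
    ∃ z ∈ Metric.ball (0:ℂ) 1,
      N * sph (Metric.ball (0:ℂ) 1) ≤ Ew K (4 / r) N z (Metric.ball 0 1) := by
  have hB : (1:ℝ) < 4 / r := by
    rw [lt_div_iff₀ hr0]; linarith
  have hB0 : 0 < (4 / r) ^ N := by positivity
  set t : ℝ := (1 / (2 * (4 / r) ^ N)) ^ N with ht
  have hN1 := hD.hN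
  have hbase : 0 < 1 / (2 * (4 / r) ^ N) := by positivity
  have hbase1 : 1 / (2 * (4 / r) ^ N) ≤ 1 / 2 := by
    rw [div_le_div_iff₀ (by positivity) (by norm_num)]
    have : (1:ℝ) ≤ (4 / r) ^ N := one_le_pow₀ hB.le
    linarith
  have ht0 : 0 < t := by positivity
  have ht1 : t ≤ 1 / 2 := by
    refine (pow_le_of_le_one hbase.le (by linarith) (by omega)).trans hbase1
  have hz : ‖((1 - t : ℝ) : ℂ)‖ < 1 := by
    rw [Complex.norm_real, Real.norm_of_nonneg (by linarith)]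
    linarith
  refine ⟨((1 - t : ℝ) : ℂ), mem_ball_zero_iff.mpr hz, ?_⟩
  have hrt : ‖rt N ((1 - t : ℝ) : ℂ)‖ = 1 / (2 * (4 / r) ^ N) := by
    have h1 := norm_rt_pow hN1 hz
    have h2 : (1 : ℂ) - ((1 - t : ℝ) : ℂ) = (t : ℂ) := by push_cast; ring
    rw [h2, Complex.norm_real, Real.norm_of_nonneg ht0.le, ht] at h1
    exact (pow_left_inj₀ (norm_nonneg _) hbase.le (by omega)).mp h1
  obtain ⟨Z, hZ⟩ := exists_preimages K (4 / r) hB N hN1 ((1 - t : ℝ) : ℂ)
    (by rw [hrt]; field_simp; exact le_refl _) hD.big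
  have hT : MeasurableSet (Metric.ball (0:ℂ) 1 \ (Z : Set ℂ)) :=
    measurableSet_ball.diff Z.measurableSet
  have h := le_area (fun w => F K (4 / r) N ((1 - t : ℝ) : ℂ) w) univ (Metric.ball 0 1) isOpen_univ
    (fun w _ => (hasDerivAt_F_w K _ N _ w).differentiableAt.differentiableWithinAt)
    measurableSet_ball (subset_univ _) _ hT N hZ
  rw [Ew_eq]
  refine le_trans (le_of_eq ?_) h
  congr 1
  have hnull : sph (Z : Set ℂ) = 0 := by
    have : sph ≪ volume := withDensity_absolutelyContinuous _ _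
    exact this (Z.finite_toSet.measure_zero volume)
  exact (measure_sdiff_null hnull).symm

end Pool.Agent.Lib.Pc848f8
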