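import Mathlib
import Pool.Agent.Lib.Pc848f8.Total

open MeasureTheory Set Filter Topology
open scoped ENNReal ComplexConjugate

namespace Pool.Agent.Lib.Pc848f8

/-- determinant of identity plus a rank one Hermitian matrix -/
lemma det_rank_one {n : ℕ} (v : Fin n → ℂ) (c D : ℝ) :
    (Matrix.det (1 + Matrix.of fun i j : Fin n => (c : ℂ) * (v i * conj (v j)) / (D : ℂ))).re =
      1 + c * (∑ i, ‖v i‖ ^ 2) / D := by
  have h : (Matrix.of fun i j : Fin n => (c : ℂ) * (v i * conj (v j)) / (D : ℂ)) =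
      Matrix.replicateCol Unit (fun i => (c : ℂ) * v i / D) *
        Matrix.replicateRow Unit (fun j => conj (v j)) := by
    ext i j
    simp [Matrix.mul_apply]
    ring
  rw [h, Matrix.det_one_add_replicateCol_mul_replicateRow]
  have h2 : (fun j => conj (v j)) ⬝ᵥ (fun i => (c : ℂ) * v i / D) =
      ((c * (∑ i, ‖v i‖ ^ 2) / D : ℝ) : ℂ) := by
    unfold dotProduct
    push_cast
    rw [Finset.mul_sum, Finset.sum_div]
    apply Finset.sum_congr rfl
    intro i _
    have : conj (v i) * v i = (‖v i‖ : ℂ) ^ 2 := by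
      rw [mul_comm, Complex.mul_conj, Complex.normSq_eq_norm_sq]
      push_cast; rfl
    calc conj (v i) * ((c : ℂ) * v i / D) = c * (conj (v i) * v i) / D := by ring
      _ = _ := by rw [this]
  rw [h2]
  simp only [Complex.add_re, Complex.one_re, Complex.ofReal_re]

/-- the function on `ℂ^n` -/
noncomputable def Fn (K B : ℝ) (N : ℕ) {n : ℕ} (a b : Fin n) (x : Fin n → ℂ) : ℂ :=
  F K B N (x a) (x b)

lemma differentiableAt_Fn (K B : ℝ) (N : ℕ) {n : ℕ} (a b : Fin n) (x : Fin n → ℂ)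
    (hx : ‖x a‖ < 1) : DifferentiableAt ℂ (Fn K B N a b) x := by
  unfold Fn F P
  have h1 : DifferentiableAt ℂ (fun x : Fin n → ℂ => rt N (x a)) x :=
    DifferentiableAt.comp (g := rt N) x (hasDerivAt_rt N hx).differentiableAt
      (differentiableAt_apply a x)
  have h2 : ∀ b : Fin n, DifferentiableAt ℂ (fun x : Fin n → ℂ => x b) x :=
    fun b => differentiableAt_apply b x
  apply DifferentiableAt.const_mul
  exact (HasFDerivAt.finsetProd (u := Finset.range N)
    (g := fun j (x : Fin n → ℂ) => (x b - (B : ℂ) ^ (j + 1) * rt N (x a)))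
    (fun j _ => ((h2 b).sub (h1.const_mul _)).hasFDerivAt)).differentiableAt

lemma fderiv_Fn (K B : ℝ) (N : ℕ) {n : ℕ} (a b : Fin n) (hab : a ≠ b) (x : Fin n → ℂ)
    (hx : ‖x a‖ < 1) (i : Fin n) :
    fderiv ℂ (Fn K B N a b) x (Pi.single i 1) =
      if i = a then Fz K B N (x a) (x b) else if i = b then Fw K B N (x a) (x b) else 0 := by
  rw [← (differentiableAt_Fn K B N a b x hx).lineDeriv_eq_fderiv]
  unfold lineDeriv Fn
  split_ifs with h1 h2
  · subst h1
    have : (fun t : ℂ => F K B N ((x + t • (Pi.single i (1:ℂ) : Fin n → ℂ)) i) ((x + t • (Pi.single i (1:ℂ) : Fin n → ℂ)) b)) =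
        fun t => F K B N (x i + t) (x b) := by
      funext t
      simp [Pi.single_eq_of_ne' hab]
    rw [this]
    have h := hasDerivAt_F_z K B N hx (x b)
    have h3 : HasDerivAt (fun t : ℂ => x i + t) 1 0 := by
      simpa using (hasDerivAt_id (0:ℂ)).const_add (x i)
    have h4 : HasDerivAt (fun z => F K B N z (x b)) (Fz K B N (x i) (x b)) (x i + 0) := by
      simpa using h
    have h5 := (h4.comp (0:ℂ) h3).deriv
    rw [mul_one] at h5
    exact h5
  · subst h2
    have : (fun t : ℂ => F K B N ((x + t • (Pi.single i (1:ℂ) : Fin n → ℂ)) a) ((x + t • (Pi.single i (1:ℂ) : Fin n → ℂ)) i)) =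
        fun t => F K B N (x a) (x i + t) := by
      funext t
      simp [Pi.single_eq_of_ne hab]
    rw [this]
    have h := hasDerivAt_F_w K B N (x a) (x i)
    have h3 : HasDerivAt (fun t : ℂ => x i + t) 1 0 := by
      simpa using (hasDerivAt_id (0:ℂ)).const_add (x i)
    have h4 : HasDerivAt (fun w => F K B N (x a) w) (Fw K B N (x a) (x i)) (x i + 0) := by
      simpa using h
    have h5 := (h4.comp (0:ℂ) h3).deriv
    rw [mul_one] at h5
    exact h5
  · have : (fun t : ℂ => F K B N ((x + t • (Pi.single i (1:ℂ) : Fin n → ℂ)) a) ((x + t • (Pi.single i (1:ℂ) : Fin n → ℂ)) b)) =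
        fun _ => F K B N (x a) (x b) := by
      funext t
      simp [Pi.single_eq_of_ne' h1, Pi.single_eq_of_ne' h2]
    rw [this]
    simp

lemma sum_fderiv_Fn (K B : ℝ) (N : ℕ) {n : ℕ} (a b : Fin n) (hab : a ≠ b) (x : Fin n → ℂ)
    (hx : ‖x a‖ < 1) :
    ∑ i, ‖fderiv ℂ (Fn K B N a b) x (Pi.single i 1)‖ ^ 2 =
      ‖Fz K B N (x a) (x b)‖ ^ 2 + ‖Fw K B N (x a) (x b)‖ ^ 2 := by
  rw [Finset.sum_congr rfl (fun i _ => by rw [fderiv_Fn K B N a b hab x hx i])]
  rw [Finset.sum_eq_add a b hab]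
  · simp [hab.symm]
  · intro c _ hc
    simp [hc.1, hc.2]
  · simp
  · simp

/-- one-variable slice functions -/
lemma differentiableAt_Fs (K B : ℝ) (N : ℕ) (z : ℂ) (x : Fin 1 → ℂ) :
    DifferentiableAt ℂ (fun w : Fin 1 → ℂ => F K B N z (w 0)) x := by
  have := (hasDerivAt_F_w K B N z (x 0)).differentiableAt
  exact this.comp x (differentiableAt_apply 0 x)

lemma fderiv_Fs (K B : ℝ) (N : ℕ) (z : ℂ) (x : Fin 1 → ℂ) :
    fderiv ℂ (fun w : Fin 1 → ℂ => F K B N z (w 0)) x (Pi.single 0 1) = Fw K B N z (x 0) := by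
  rw [← (differentiableAt_Fs K B N z x).lineDeriv_eq_fderiv]
  unfold lineDeriv
  have : (fun t : ℂ => F K B N z ((x + t • (Pi.single 0 (1:ℂ) : Fin 1 → ℂ)) 0)) =
      fun t => F K B N z (x 0 + t) := by
    funext t
    simp
  rw [this]
  have h := hasDerivAt_F_w K B N z (x 0)
  have h3 : HasDerivAt (fun t : ℂ => x 0 + t) 1 0 := by
    simpa using (hasDerivAt_id (0:ℂ)).const_add (x 0)
  have h4 : HasDerivAt (fun w => F K B N z w) (Fw K B N z (x 0)) (x 0 + 0) := by
    simpa using h
  have h5 := (h4.comp (0:ℂ) h3).deriv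
  rw [mul_one] at h5
  exact h5

lemma measurable_two (g : ℂ → ℂ → ℝ≥0∞) (hg : Measurable (fun p : ℂ × ℂ => g p.1 p.2)) {n : ℕ}
    (a b : Fin n) : Measurable (fun x : Fin n → ℂ => g (x a) (x b)) := by
  have h : Measurable (fun x : Fin n → ℂ => (x a, x b)) :=
    (measurable_pi_apply a).prodMk (measurable_pi_apply b)
  exact hg.comp h

/-- bound for the integral of `1 + c g` over a subset of the polydisk -/
lemma lintegral_bound (q : ℕ) (g : ℂ → ℂ → ℝ≥0∞) (U : Set ℂ)
    (hg : Measurable (fun p : ℂ × ℂ => g p.1 p.2)) (M : ℝ≥0∞)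
    (hM : ∫⁻ z in U, ∫⁻ w in U, g z w ≤ M) (c : ℝ≥0∞)
    (T : Set (Fin (q + 1 + 1) → ℂ)) (hT : T ⊆ Set.pi univ (fun _ => U))
    (hI : ∫⁻ x in Set.pi univ (fun _ : Fin (q + 1 + 1) => U), g (x 0) (x (Fin.last (q + 1))) =
      (volume U) ^ q * ∫⁻ z in U, ∫⁻ w in U, g z w) :
    ∫⁻ x in T, (1 + c * g (x 0) (x (Fin.last (q + 1)))) ≤ volume T + c * (volume U ^ q * M) := by
  rw [lintegral_add_left measurable_const, setLIntegral_const, one_mul,
    lintegral_const_mul _ (measurable_two g hg _ _)]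
  gcongr
  calc ∫⁻ x in T, g (x 0) (x (Fin.last (q + 1)))
      ≤ ∫⁻ x in Set.pi univ (fun _ : Fin (q + 1 + 1) => U), g (x 0) (x (Fin.last (q + 1))) :=
        lintegral_mono_set hT
    _ = _ := hI
    _ ≤ _ := by gcongr

/-- integral over the polydisk of a function of the first and last coordinates -/
lemma lintegral_first_last (q : ℕ) (g : ℂ → ℂ → ℝ≥0∞) (S : Set ℂ)
    (hg : Measurable (fun p : ℂ × ℂ => g p.1 p.2)) :
    ∫⁻ x in Set.pi univ (fun _ : Fin (q + 1 + 1) => S), g (x 0) (x (Fin.last (q + 1))) =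
      (volume S) ^ q * ∫⁻ z in S, ∫⁻ w in S, g z w := by
  have h1 : (volume : Measure (Fin (q + 1 + 1) → ℂ)).restrict (Set.pi univ (fun _ => S)) =
      Measure.pi (fun _ : Fin (q + 1 + 1) => (volume : Measure ℂ).restrict S) := by
    rw [volume_pi]
    exact Measure.restrict_pi_pi _ _
  rw [h1]
  have h2 := measurePreserving_piFinSuccAbove
    (fun _ : Fin (q + 1 + 1) => (volume : Measure ℂ).restrict S) 0
  have hg2 : Measurable (fun p : ℂ × (Fin (q + 1) → ℂ) => g p.1 (p.2 (Fin.last q))) := by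
    have : Measurable (fun p : ℂ × (Fin (q + 1) → ℂ) => (p.1, p.2 (Fin.last q))) :=
      measurable_fst.prodMk ((measurable_pi_apply _).comp measurable_snd)
    exact hg.comp this
  have h3 := h2.lintegral_comp hg2
  have h4 : ∀ x : Fin (q + 1 + 1) → ℂ,
      (fun p : ℂ × (Fin (q + 1) → ℂ) => g p.1 (p.2 (Fin.last q)))
        ((MeasurableEquiv.piFinSuccAbove (fun _ : Fin (q + 1 + 1) => ℂ) 0) x) =
      g (x 0) (x (Fin.last (q + 1))) := by
    intro x
    rfl
  rw [← lintegral_congr h4]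
  refine h3.trans ?_
  rw [lintegral_prod _ hg2.aemeasurable]
  have h5 : ∀ z : ℂ, ∫⁻ y : Fin (q + 1) → ℂ, g z (y (Fin.last q))
      ∂(Measure.pi (fun _ : Fin (q + 1) => (volume : Measure ℂ).restrict S)) =
      (volume S) ^ q * ∫⁻ w in S, g z w := by
    intro z
    have h6 := Measure.pi_map_eval (fun _ : Fin (q + 1) => (volume : Measure ℂ).restrict S)
      (Fin.last q)
    have h7 : Measurable (fun w : ℂ => g z w) := hg.comp (measurable_const.prodMk measurable_id)
    have h8 := lintegral_map (μ := Measure.pi (fun _ : Fin (q + 1) =>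
      (volume : Measure ℂ).restrict S)) h7 (measurable_pi_apply (Fin.last q))
    rw [← h8]
    have h9 : Measure.map (fun y : Fin (q + 1) → ℂ => y (Fin.last q))
        (Measure.pi (fun _ : Fin (q + 1) => (volume : Measure ℂ).restrict S)) =
        (volume S) ^ q • (volume : Measure ℂ).restrict S := by
      rw [show (fun y : Fin (q + 1) → ℂ => y (Fin.last q)) = Function.eval (Fin.last q) from rfl,
        h6]
      congr 1
      rw [Finset.prod_const, Finset.card_erase_of_mem (Finset.mem_univ _), Finset.card_univ,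
        Fintype.card_fin, Measure.restrict_apply_univ]
      rfl
    rw [h9, lintegral_smul_measure]
    rfl
  calc _ = ∫⁻ z in S, (volume S) ^ q * ∫⁻ w in S, g z w := lintegral_congr h5
    _ = _ := by
      rw [lintegral_const_mul]
      exact hg.lintegral_prod_right'

lemma measurable_sec (g : ℂ → ℂ → ℝ≥0∞) (hg : Measurable (fun p : ℂ × ℂ => g p.1 p.2)) (z : ℂ) :
    Measurable (g z) := by
  have h : Measurable (fun w : ℂ => (z, w)) := measurable_const.prodMk measurable_id
  exact hg.comp h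

lemma measurable_ew_sec (K B : ℝ) (N : ℕ) (z : ℂ) : Measurable (ew K B N z) :=
  measurable_sec _ (measurable_ew K B N) z

/-- the slice integral -/
lemma lintegral_slice (g : ℂ → ℝ≥0∞) (hg : Measurable g) (c : ℝ≥0∞) (T : Set ℂ) :
    ∫⁻ x in {x : Fin 1 → ℂ | x 0 ∈ T}, (1 + c * g (x 0)) = volume T + c * ∫⁻ w in T, g w := by
  have h := volume_preserving_funUnique (Fin 1) ℂ
  have h1 : {x : Fin 1 → ℂ | x 0 ∈ T} = (MeasurableEquiv.funUnique (Fin 1) ℂ) ⁻¹' T := rfl
  rw [h1]
  have h2 := h.setLIntegral_comp_preimage_emb (MeasurableEquiv.measurableEmbedding _)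
    (fun w => 1 + c * g w) T
  refine h2.trans ?_
  rw [lintegral_add_left measurable_const, setLIntegral_const, one_mul,
    lintegral_const_mul _ hg]

end Pool.Agent.Lib.Pc848f8
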